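import Mathlib
set_option autoImplicit false

/-! # Ternary digits and products of phases -/

namespace Pool.Agent.V1178.PS

open MeasureTheory Set Filter

/-- the ternary digit at place `k + 1` -/
noncomputable def dg (k : ℕ) (x : ℝ) : ℤ := ⌊(3 : ℝ) ^ (k + 1) * x⌋ % 3

theorem dg_meas (k : ℕ) : Measurable (dg k) := by
  unfold dg
  have h : Measurable fun x : ℝ => ⌊(3 : ℝ) ^ (k + 1) * x⌋ := (measurable_const_mul _).floor
  exact (measurable_from_top (f := fun n : ℤ => n % 3)).comp h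

theorem dg_range (k : ℕ) (x : ℝ) : 0 ≤ dg k x ∧ dg k x < 3 :=
  ⟨Int.emod_nonneg _ (by norm_num), Int.emod_lt_of_pos _ (by norm_num)⟩

/-- shift by a multiple of `3^{-(k+1)}` -/
theorem floor_shift (k j : ℕ) (hj : k ≤ j) (x : ℝ) (d : ℤ) :
    ⌊(3 : ℝ) ^ (j + 1) * (x + d / 3 ^ (k + 1))⌋ = ⌊(3 : ℝ) ^ (j + 1) * x⌋ + d * 3 ^ (j - k) := by
  have h : (3 : ℝ) ^ (j + 1) * (x + d / 3 ^ (k + 1)) =
      (3 : ℝ) ^ (j + 1) * x + ((d * 3 ^ (j - k) : ℤ) : ℝ) := by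
    have h3 : (3 : ℝ) ^ (j + 1) = 3 ^ (j - k) * 3 ^ (k + 1) := by
      rw [← pow_add]; congr 1; omega
    push_cast
    rw [mul_add, h3]
    field_simp
  rw [h, Int.floor_add_intCast]

theorem dg_shift_ge (k j : ℕ) (hj : k < j) (x : ℝ) (d : ℤ) :
    dg j (x + d / 3 ^ (k + 1)) = dg j x := by
  unfold dg
  rw [floor_shift k j hj.le]
  have : (3 : ℤ) ∣ d * 3 ^ (j - k) :=
    Dvd.dvd.mul_left (dvd_pow_self 3 (by omega)) d
  omega

theorem dg_shift_eq (k : ℕ) (x : ℝ) (d : ℤ) :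
    dg k (x + d / 3 ^ (k + 1)) = (dg k x + d) % 3 := by
  unfold dg
  rw [floor_shift k k le_rfl]
  simp

/-- adding a digit at a place with digit zero does not change the digits before -/
theorem floor_shift_lt (k j : ℕ) (hj : j < k) (y : ℝ) (hy : dg k y = 0) (d : ℤ) (hd : 0 ≤ d)
    (hd3 : d < 3) :
    ⌊(3 : ℝ) ^ (j + 1) * (y + d / 3 ^ (k + 1))⌋ = ⌊(3 : ℝ) ^ (j + 1) * y⌋ := by
  unfold dg at hy
  obtain ⟨m, hm⟩ : ∃ m : ℤ, ⌊(3 : ℝ) ^ (k + 1) * y⌋ = 3 * m := ⟨⌊(3 : ℝ) ^ (k + 1) * y⌋ / 3, by omega⟩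
  have h1 : (3 : ℝ) ^ (k + 1) * y < 3 * m + 1 := by
    have := Int.lt_floor_add_one ((3 : ℝ) ^ (k + 1) * y)
    rw [hm] at this; push_cast at this; linarith
  have h1' : (3 : ℝ) * m ≤ (3 : ℝ) ^ (k + 1) * y := by
    have := Int.floor_le ((3 : ℝ) ^ (k + 1) * y)
    rw [hm] at this; push_cast at this; linarith
  set N : ℤ := ⌊(3 : ℝ) ^ (j + 1) * y⌋ with hN
  have hN1 := Int.floor_le ((3 : ℝ) ^ (j + 1) * y)
  have hN2 := Int.lt_floor_add_one ((3 : ℝ) ^ (j + 1) * y)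
  rw [← hN] at hN1 hN2
  have hk1 : (3 : ℝ) ^ (k + 1) = 3 * 3 ^ k := by rw [pow_succ]; ring
  have hpk : (0 : ℝ) < 3 ^ k := by positivity
  have hpj : (0 : ℝ) < 3 ^ (j + 1) := by positivity
  have hsplit : (3 : ℝ) ^ k = 3 ^ (k - (j + 1)) * 3 ^ (j + 1) := by
    rw [← pow_add]; congr 1; omega
  have hpkj : (0 : ℝ) < 3 ^ (k - (j + 1)) := by positivity
  -- m < (N+1) 3^{k-j-1}
  have hlt : (m : ℝ) < ((N : ℝ) + 1) * 3 ^ (k - (j + 1)) := by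
    have h2 : (m : ℝ) ≤ 3 ^ k * y := by rw [hk1] at h1'; nlinarith
    have h3 : (3 : ℝ) ^ k * y < 3 ^ (k - (j + 1)) * ((N : ℝ) + 1) := by
      rw [hsplit, mul_assoc]
      exact mul_lt_mul_of_pos_left hN2 hpkj
    linarith
  have hle : m + 1 ≤ (N + 1) * 3 ^ (k - (j + 1)) := by
    have : m < (N + 1) * 3 ^ (k - (j + 1)) := by exact_mod_cast hlt
    omega
  have hle' : (m : ℝ) + 1 ≤ ((N : ℝ) + 1) * 3 ^ (k - (j + 1)) := by exact_mod_cast hle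
  have hdR : (0 : ℝ) ≤ d := by exact_mod_cast hd
  have hdR2 : (d : ℝ) ≤ 2 := by
    have : d ≤ 2 := by omega
    exact_mod_cast this
  rw [Int.floor_eq_iff]
  constructor
  · have : (3 : ℝ) ^ (j + 1) * y ≤ 3 ^ (j + 1) * (y + d / 3 ^ (k + 1)) := by
      apply mul_le_mul_of_nonneg_left _ hpj.le
      have : (0 : ℝ) ≤ d / 3 ^ (k + 1) := by positivity
      linarith
    linarith
  · have h4 : (3 : ℝ) ^ (k + 1) * (y + d / 3 ^ (k + 1)) < 3 * m + 3 := by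
      rw [mul_add, mul_div_cancel₀ _ (by positivity)]
      linarith
    have h5 : (3 : ℝ) ^ k * (y + d / 3 ^ (k + 1)) < m + 1 := by
      generalize y + (d : ℝ) / 3 ^ (k + 1) = w at h4 ⊢
      rw [hk1] at h4
      nlinarith
    have h6 : (3 : ℝ) ^ (k - (j + 1)) * (3 ^ (j + 1) * (y + d / 3 ^ (k + 1))) <
        3 ^ (k - (j + 1)) * ((N : ℝ) + 1) := by
      rw [← mul_assoc, ← hsplit]; linarith
    exact lt_of_mul_lt_mul_left h6 hpkj.le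

theorem dg_shift_lt (k j : ℕ) (hj : j < k) (y : ℝ) (hy : dg k y = 0) (d : ℤ) (hd : 0 ≤ d)
    (hd3 : d < 3) : dg j (y + d / 3 ^ (k + 1)) = dg j y := by
  unfold dg
  rw [floor_shift_lt k j hj y hy d hd hd3]

/-- the unit interval is preserved -/
theorem mem_shift (k : ℕ) (y : ℝ) (hy : dg k y = 0) (d : ℤ) (hd : 0 ≤ d) (hd3 : d < 3)
    (h : y ∈ Ico (0 : ℝ) 1) : y + d / 3 ^ (k + 1) ∈ Ico (0 : ℝ) 1 := by
  have hdR : (0 : ℝ) ≤ d := by exact_mod_cast hd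
  have hdR2 : (d : ℝ) ≤ 2 := by
    have : d ≤ 2 := by omega
    exact_mod_cast this
  have hp : (0 : ℝ) ≤ d / 3 ^ (k + 1) := by positivity
  refine ⟨by linarith [h.1], ?_⟩
  unfold dg at hy
  obtain ⟨m, hm⟩ : ∃ m : ℤ, ⌊(3 : ℝ) ^ (k + 1) * y⌋ = 3 * m := ⟨⌊(3 : ℝ) ^ (k + 1) * y⌋ / 3, by omega⟩
  have h1 : (3 : ℝ) ^ (k + 1) * y < 3 * m + 1 := by
    have := Int.lt_floor_add_one ((3 : ℝ) ^ (k + 1) * y)
    rw [hm] at this; push_cast at this; linarith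
  have h1' : (3 : ℝ) * m ≤ (3 : ℝ) ^ (k + 1) * y := by
    have := Int.floor_le ((3 : ℝ) ^ (k + 1) * y)
    rw [hm] at this; push_cast at this; linarith
  have hk1 : (3 : ℝ) ^ (k + 1) = 3 * 3 ^ k := by rw [pow_succ]; ring
  have hpk : (0 : ℝ) < 3 ^ k := by positivity
  have h2 : (m : ℝ) < 3 ^ k := by
    rw [hk1] at h1'
    have := h.2
    nlinarith
  have h3 : m + 1 ≤ 3 ^ k := by
    have : m < 3 ^ k := by exact_mod_cast h2
    omega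
  have h3' : (m : ℝ) + 1 ≤ 3 ^ k := by exact_mod_cast h3
  have h4 : (3 : ℝ) ^ (k + 1) * (y + d / 3 ^ (k + 1)) < 3 * m + 3 := by
    rw [mul_add, mul_div_cancel₀ _ (by positivity)]
    linarith
  have h5 : (3 : ℝ) ^ (k + 1) * (y + d / 3 ^ (k + 1)) < 3 ^ (k + 1) * 1 := by
    generalize y + (d : ℝ) / 3 ^ (k + 1) = w at h4 ⊢
    rw [mul_one]; rw [hk1] at h4 ⊢; linarith
  exact lt_of_mul_lt_mul_left h5 (by positivity)

/-- removing the digit at place `k + 1` -/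
theorem remove (k : ℕ) (x : ℝ) (hx : x ∈ Ico (0 : ℝ) 1) :
    dg k (x - dg k x / 3 ^ (k + 1)) = 0 ∧ x - dg k x / 3 ^ (k + 1) ∈ Ico (0 : ℝ) 1 := by
  have h0 := dg_range k x
  have h1 : x - (dg k x : ℝ) / 3 ^ (k + 1) = x + ((-dg k x : ℤ) : ℝ) / 3 ^ (k + 1) := by
    push_cast; ring
  refine ⟨?_, ?_, ?_⟩
  · rw [h1, dg_shift_eq]; simp
  · have h2 : (dg k x : ℝ) ≤ 3 ^ (k + 1) * x := by
      have h3 := Int.floor_le ((3 : ℝ) ^ (k + 1) * x)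
      have h4 : 0 ≤ ⌊(3 : ℝ) ^ (k + 1) * x⌋ := Int.floor_nonneg.mpr (by have := hx.1; positivity)
      have h5 : dg k x ≤ ⌊(3 : ℝ) ^ (k + 1) * x⌋ := by
        unfold dg
        omega
      have h6 : (dg k x : ℝ) ≤ (⌊(3 : ℝ) ^ (k + 1) * x⌋ : ℝ) := by exact_mod_cast h5
      linarith
    rw [sub_nonneg, div_le_iff₀ (by positivity)]
    linarith
  · have : (0 : ℝ) ≤ (dg k x : ℝ) / 3 ^ (k + 1) := by
      have : (0 : ℝ) ≤ dg k x := by exact_mod_cast h0.1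
      positivity
    linarith [hx.2]

end Pool.Agent.V1178.PS
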