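import Mathlib
import Pool.Agent.V1178.PS.Dig
set_option autoImplicit false

/-! # The functions -/

namespace Pool.Agent.V1178.PS

open MeasureTheory Set Filter Complex
open scoped ENNReal Topology

/-- phases of the factors -/
noncomputable def ga (k : ℕ) : ℝ := (1 / 2) ^ k

theorem ga_pos (k : ℕ) : 0 < ga k := by unfold ga; positivity
theorem ga_le (k : ℕ) : ga k ≤ 1 := pow_le_one₀ (by norm_num) (by norm_num)
theorem ga_sum : Summable ga := summable_geometric_of_lt_one (by norm_num) (by norm_num)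

/-- phase of the digit `d` at place `k + 1` -/
noncomputable def vv (s : ℕ → Bool) (k : ℕ) (d : ℤ) : ℝ :=
  if d = 2 then ga k else if d = 1 ∧ s k = true then ga k else 0

theorem vv_nonneg (s : ℕ → Bool) (k : ℕ) (d : ℤ) : 0 ≤ vv s k d := by
  unfold vv; split_ifs
  · exact (ga_pos k).le
  · exact (ga_pos k).le
  · exact le_rfl

theorem vv_le (s : ℕ → Bool) (k : ℕ) (d : ℤ) : vv s k d ≤ ga k := by
  unfold vv; split_ifs
  · exact le_rfl
  · exact le_rfl
  · exact (ga_pos k).le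

theorem vv_zero (s : ℕ → Bool) (k : ℕ) : vv s k 0 = 0 := by simp [vv]

theorem vv_congr (s t : ℕ → Bool) (k : ℕ) (h : s k = t k) (d : ℤ) : vv s k d = vv t k d := by
  simp [vv, h]

/-- term of the phase -/
noncomputable def tm (s : ℕ → Bool) (x : ℝ) (k : ℕ) : ℝ := vv s k (dg k x)

theorem tm_sum (s : ℕ → Bool) (x : ℝ) : Summable (tm s x) :=
  Summable.of_nonneg_of_le (fun k => vv_nonneg s k _) (fun k => vv_le s k _) ga_sum

/-- the phase -/
noncomputable def th (s : ℕ → Bool) (x : ℝ) : ℝ := ∑' k, tm s x k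

theorem th_meas (s : ℕ → Bool) : Measurable (th s) := by
  unfold th
  have h1 : ∀ k, Measurable fun x => tm s x k := fun k => by
    unfold tm
    exact (measurable_from_top (f := vv s k)).comp (dg_meas k)
  have h2 : ∀ n : ℕ, Measurable fun x => ∑ k ∈ Finset.range n, tm s x k := fun n =>
    Finset.measurable_fun_sum _ fun k _ => h1 k
  refine measurable_of_tendsto_metrizable h2 ?_
  rw [tendsto_pi_nhds]
  intro x
  exact (tm_sum s x).hasSum.tendsto_sum_nat

/-- sequences with a common beginning -/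
theorem th_close (s t : ℕ → Bool) (n : ℕ) (h : ∀ k < n, s k = t k) (x : ℝ) :
    |th s x - th t x| ≤ 2 * (1 / 2) ^ n := by
  unfold th
  rw [← (tm_sum s x).tsum_sub (tm_sum t x)]
  have hb : ∀ k, ‖tm s x k - tm t x k‖ ≤ if k < n then 0 else ga k := by
    intro k
    split_ifs with hk
    · unfold tm
      rw [vv_congr s t k (h k hk), sub_self, norm_zero]
    · rw [Real.norm_eq_abs, abs_le]
      have h1 := vv_nonneg s k (dg k x); have h2 := vv_nonneg t k (dg k x)
      have h3 := vv_le s k (dg k x); have h4 := vv_le t k (dg k x)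
      unfold tm
      constructor <;> linarith
  have hs : HasSum (fun k => if k < n then (0 : ℝ) else ga k) (2 * (1 / 2) ^ n) := by
    have h1 : HasSum ga 2 := by
      have := hasSum_geometric_of_lt_one (r := (1 / 2 : ℝ)) (by norm_num) (by norm_num)
      norm_num at this
      convert this using 1
      ext k; unfold ga; norm_num
    rw [← hasSum_nat_add_iff' n]
    have h2 : ∑ i ∈ Finset.range n, (if i < n then (0 : ℝ) else ga i) = 0 :=
      Finset.sum_eq_zero fun i hi => if_pos (Finset.mem_range.mp hi)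
    rw [h2, sub_zero]
    have h3 : (fun k => if k + n < n then (0 : ℝ) else ga (k + n)) = fun k => (1 / 2) ^ n * ga k := by
      funext k
      rw [if_neg (by omega)]
      unfold ga; rw [pow_add]; ring
    rw [h3]
    have := h1.mul_left ((1 / 2 : ℝ) ^ n)
    rwa [mul_comm _ (2 : ℝ)] at this
  exact tsum_of_norm_bounded hs hb

/-- the functions -/
noncomputable def ff (s : ℕ → Bool) (x : ℝ) : ℂ :=
  if x ∈ Ico (0 : ℝ) 1 then cexp (th s x * I) else 0

/-- the part with digit `0` at place `k + 1` -/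
noncomputable def hh (s : ℕ → Bool) (k : ℕ) (x : ℝ) : ℂ := if dg k x = 0 then ff s x else 0

theorem ff_meas (s : ℕ → Bool) : Measurable (ff s) := by
  unfold ff
  refine Measurable.ite measurableSet_Ico ?_ measurable_const
  exact measurable_exp.comp ((measurable_ofReal.comp (th_meas s)).mul_const _)

theorem hh_meas (s : ℕ → Bool) (k : ℕ) : Measurable (hh s k) :=
  Measurable.ite ((dg_meas k) (measurableSet_singleton 0)) (ff_meas s) measurable_const

theorem norm_ff (s : ℕ → Bool) (x : ℝ) : ‖ff s x‖ = if x ∈ Ico (0 : ℝ) 1 then 1 else 0 := by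
  unfold ff
  split_ifs
  · exact Complex.norm_exp_ofReal_mul_I _
  · exact norm_zero

theorem norm_hh_le (s : ℕ → Bool) (k : ℕ) (x : ℝ) : ‖hh s k x‖ ≤ ‖ff s x‖ := by
  unfold hh
  split_ifs
  · exact le_rfl
  · rw [norm_zero]; exact norm_nonneg _

theorem ff_zero (s : ℕ → Bool) {x : ℝ} (h : x ∉ Ico (0 : ℝ) 1) : ff s x = 0 := if_neg h

/-- the phase after adding a digit -/
theorem th_shift (s : ℕ → Bool) (k : ℕ) (y : ℝ) (hy : dg k y = 0) (d : ℤ) (hd : 0 ≤ d)
    (hd3 : d < 3) : th s (y + d / 3 ^ (k + 1)) = th s y + vv s k d := by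
  have h1 : ∀ j, tm s (y + d / 3 ^ (k + 1)) j - tm s y j = if j = k then vv s k d else 0 := by
    intro j
    rcases lt_trichotomy j k with h | h | h
    · rw [if_neg h.ne]
      unfold tm
      rw [dg_shift_lt k j h y hy d hd hd3, sub_self]
    · subst h
      rw [if_pos rfl]
      unfold tm
      rw [dg_shift_eq, hy, zero_add, Int.emod_eq_of_lt hd hd3, vv_zero, sub_zero]
    · rw [if_neg h.ne']
      unfold tm
      rw [dg_shift_ge k j h, sub_self]
  have h2 : th s (y + d / 3 ^ (k + 1)) - th s y = ∑' j, (tm s (y + d / 3 ^ (k + 1)) j - tm s y j) :=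
    ((tm_sum s _).tsum_sub (tm_sum s _)).symm
  rw [tsum_congr h1, tsum_ite_eq] at h2
  linarith

theorem hh_shift (s : ℕ → Bool) (k : ℕ) (y : ℝ) (d : ℤ) (hd : 0 ≤ d) (hd3 : d < 3) :
    cexp (vv s k d * I) * hh s k y =
      if dg k (y + d / 3 ^ (k + 1)) = d ∧ y ∈ Ico (0 : ℝ) 1 ∧ dg k y = 0
      then ff s (y + d / 3 ^ (k + 1)) else 0 := by
  unfold hh
  by_cases h : dg k y = 0
  · rw [if_pos h]
    by_cases hI : y ∈ Ico (0 : ℝ) 1
    · have e : dg k (y + d / 3 ^ (k + 1)) = d := by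
        rw [dg_shift_eq, h, zero_add, Int.emod_eq_of_lt hd hd3]
      rw [if_pos ⟨e, hI, h⟩]
      unfold ff
      rw [if_pos hI, if_pos (mem_shift k y h d hd hd3 hI), th_shift s k y h d hd hd3]
      rw [← Complex.exp_add]; congr 1; push_cast; ring
    · rw [if_neg (fun h' => hI h'.2.1), ff_zero s hI, mul_zero]
  · rw [if_neg h, if_neg (fun h' => h h'.2.2), mul_zero]

/-- decomposition at place `k + 1` -/
theorem decomp (s : ℕ → Bool) (k : ℕ) (x : ℝ) :
    ff s x = ∑ i : Fin 3, cexp (vv s k (i : ℕ) * I) * hh s k (x - ((i : ℕ) : ℝ) / 3 ^ (k + 1)) := by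
  have key : ∀ i : Fin 3, cexp (vv s k (i : ℕ) * I) * hh s k (x - ((i : ℕ) : ℝ) / 3 ^ (k + 1)) =
      if dg k x = (i : ℕ) then ff s x else 0 := by
    intro i
    have hi : ((i : ℕ) : ℤ) < 3 := by have := i.2; omega
    have h := hh_shift s k (x - ((i : ℕ) : ℝ) / 3 ^ (k + 1)) (i : ℕ) (by positivity) hi
    have e : x - ((i : ℕ) : ℝ) / 3 ^ (k + 1) + (((i : ℕ) : ℤ) : ℝ) / 3 ^ (k + 1) = x := by
      push_cast; ring
    rw [e] at h
    rw [h]
    by_cases hd : dg k x = (i : ℕ)
    · rw [if_pos hd]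
      by_cases hI : x ∈ Ico (0 : ℝ) 1
      · have h2 := remove k x hI
        rw [hd] at h2
        push_cast at h2
        rw [if_pos ⟨hd, h2.2, h2.1⟩]
      · rw [ff_zero s hI, ite_self]
    · rw [if_neg hd, if_neg (fun h' => hd h'.1)]
  simp_rw [key]
  have h0 := dg_range k x
  have h3 : dg k x = 0 ∨ dg k x = 1 ∨ dg k x = 2 := by omega
  rw [Fin.sum_univ_three]
  rcases h3 with h | h | h <;> rw [h] <;> simp

/-- the part with digit `0` does not depend on the choice at this place -/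
theorem hh_congr (s t : ℕ → Bool) (k : ℕ) (h : ∀ j, j ≠ k → s j = t j) : hh s k = hh t k := by
  funext x
  unfold hh
  by_cases h0 : dg k x = 0
  · rw [if_pos h0, if_pos h0]
    unfold ff
    have : th s x = th t x := by
      unfold th
      refine tsum_congr fun j => ?_
      unfold tm
      by_cases hj : j = k
      · subst hj; rw [h0, vv_zero, vv_zero]
      · exact vv_congr s t j (h j hj) _
    rw [this]
  · rw [if_neg h0, if_neg h0]

/-! ### Fourier transforms -/

/-- the Fourier integral -/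
noncomputable def ft (f : ℝ → ℂ) (ξ : ℝ) : ℂ := ∫ x, cexp (((-2 * Real.pi * x * ξ : ℝ) : ℂ) * I) * f x

theorem dom_int {f : ℝ → ℂ} (hf : Measurable f)
    (hb : ∀ x, ‖f x‖ ≤ if x ∈ Ico (0 : ℝ) 1 then 1 else 0) : Integrable f := by
  have h1 : Integrable (fun x : ℝ => (Ico (0 : ℝ) 1).indicator (fun _ => (1 : ℝ)) x) :=
    (integrable_indicator_iff measurableSet_Ico).mpr (integrableOn_const (by simp) (by simp))
  refine h1.mono' hf.aestronglyMeasurable (Eventually.of_forall fun x => ?_)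
  rw [indicator_apply]
  exact hb x

theorem ff_int (s : ℕ → Bool) : Integrable (ff s) := dom_int (ff_meas s) fun x => (norm_ff s x).le

theorem hh_int (s : ℕ → Bool) (k : ℕ) : Integrable (hh s k) :=
  dom_int (hh_meas s k) fun x => (norm_hh_le s k x).trans (norm_ff s x).le

theorem ph_meas (ξ : ℝ) : Continuous fun x : ℝ => cexp (((-2 * Real.pi * x * ξ : ℝ) : ℂ) * I) := by
  fun_prop

theorem ph_int {f : ℝ → ℂ} (hf : Integrable f) (ξ : ℝ) :
    Integrable fun x : ℝ => cexp (((-2 * Real.pi * x * ξ : ℝ) : ℂ) * I) * f x := by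
  refine hf.bdd_mul (c := 1) (ph_meas ξ).aestronglyMeasurable ?_
  exact Eventually.of_forall fun x => (Complex.norm_exp_ofReal_mul_I _).le

/-- the Fourier transform as a product -/
theorem ft_ff (s : ℕ → Bool) (k : ℕ) (ξ : ℝ) :
    ft (ff s) ξ = (∑ i : Fin 3, cexp (vv s k (i : ℕ) * I) *
      cexp (((-2 * Real.pi * (((i : ℕ) : ℝ) / 3 ^ (k + 1)) * ξ : ℝ) : ℂ) * I)) * ft (hh s k) ξ := by
  have h1 : ∀ x, cexp (((-2 * Real.pi * x * ξ : ℝ) : ℂ) * I) * ff s x =
      ∑ i : Fin 3, (cexp (vv s k (i : ℕ) * I) *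
      cexp (((-2 * Real.pi * (((i : ℕ) : ℝ) / 3 ^ (k + 1)) * ξ : ℝ) : ℂ) * I)) *
        (cexp (((-2 * Real.pi * (x - ((i : ℕ) : ℝ) / 3 ^ (k + 1)) * ξ : ℝ) : ℂ) * I) *
          hh s k (x - ((i : ℕ) : ℝ) / 3 ^ (k + 1))) := by
    intro x
    rw [decomp s k x, Finset.mul_sum]
    refine Finset.sum_congr rfl fun i _ => ?_
    have e : cexp (((-2 * Real.pi * x * ξ : ℝ) : ℂ) * I) =
        cexp (((-2 * Real.pi * (((i : ℕ) : ℝ) / 3 ^ (k + 1)) * ξ : ℝ) : ℂ) * I) *
        cexp (((-2 * Real.pi * (x - ((i : ℕ) : ℝ) / 3 ^ (k + 1)) * ξ : ℝ) : ℂ) * I) := by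
      rw [← Complex.exp_add]; congr 1; push_cast; ring
    rw [e]; ring
  unfold ft
  simp_rw [h1]
  rw [integral_finsetSum]
  · rw [Finset.sum_mul]
    refine Finset.sum_congr rfl fun i _ => ?_
    rw [integral_const_mul]
    congr 1
    exact integral_sub_right_eq_self (fun x => cexp (((-2 * Real.pi * x * ξ : ℝ) : ℂ) * I) * hh s k x)
      (((i : ℕ) : ℝ) / 3 ^ (k + 1))
  · intro i _
    exact ((ph_int (hh_int s k) ξ).comp_sub_right (((i : ℕ) : ℝ) / 3 ^ (k + 1))).const_mul _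

/-- the two factors have the same modulus -/
theorem factor (a z : ℂ) (ha : ‖a‖ = 1) (hz : ‖z‖ = 1) :
    ‖1 + a * z + a * z ^ 2‖ = ‖1 + z + a * z ^ 2‖ := by
  have ha2 : a * (starRingEnd ℂ) a = 1 := by
    rw [Complex.mul_conj, Complex.normSq_eq_norm_sq, ha]; norm_num
  have hz2 : z * (starRingEnd ℂ) z = 1 := by
    rw [Complex.mul_conj, Complex.normSq_eq_norm_sq, hz]; norm_num
  have h : 1 + a * z + a * z ^ 2 = a * z ^ 2 * (starRingEnd ℂ) (1 + z + a * z ^ 2) := by
    simp only [map_add, map_mul, map_pow, map_one]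
    have e1 : a * z ^ 2 * (1 + (starRingEnd ℂ) z + (starRingEnd ℂ) a * (starRingEnd ℂ) z ^ 2) =
        a * z ^ 2 + a * z * (z * (starRingEnd ℂ) z) +
          (a * (starRingEnd ℂ) a) * (z * (starRingEnd ℂ) z) ^ 2 := by ring
    rw [e1, ha2, hz2]; ring
  rw [h, norm_mul, norm_mul, norm_pow, ha, hz, one_pow, one_mul, one_mul, RCLike.norm_conj]

theorem coef_norm (s : ℕ → Bool) (k : ℕ) (ξ : ℝ) :
    ‖∑ i : Fin 3, cexp (vv s k (i : ℕ) * I) *
      cexp (((-2 * Real.pi * (((i : ℕ) : ℝ) / 3 ^ (k + 1)) * ξ : ℝ) : ℂ) * I)‖ =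
    ‖1 + cexp (((-2 * Real.pi * (1 / 3 ^ (k + 1)) * ξ : ℝ) : ℂ) * I) + cexp (ga k * I) *
      cexp (((-2 * Real.pi * (1 / 3 ^ (k + 1)) * ξ : ℝ) : ℂ) * I) ^ 2‖ := by
  set z := cexp (((-2 * Real.pi * (1 / 3 ^ (k + 1)) * ξ : ℝ) : ℂ) * I) with hz
  have hz2 : cexp (((-2 * Real.pi * (2 / 3 ^ (k + 1)) * ξ : ℝ) : ℂ) * I) = z ^ 2 := by
    rw [hz, ← Complex.exp_nat_mul]; congr 1; push_cast; ring
  have v0 : vv s k 0 = 0 := vv_zero s k
  have v2 : vv s k 2 = ga k := by simp [vv]
  have hnz : ‖z‖ = 1 := Complex.norm_exp_ofReal_mul_I _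
  have hna : ‖cexp (ga k * I)‖ = 1 := Complex.norm_exp_ofReal_mul_I _
  rw [Fin.sum_univ_three]
  simp only [Fin.val_zero, Fin.val_one, Fin.val_two, Nat.cast_zero, Nat.cast_one, Nat.cast_ofNat,
    v0, v2, hz2]
  rw [← hz]
  have h0 : cexp (((-2 * Real.pi * (0 / 3 ^ (k + 1)) * ξ : ℝ) : ℂ) * I) = 1 := by simp
  rw [h0]
  simp only [ofReal_zero, zero_mul, Complex.exp_zero, one_mul]
  cases hs : s k
  · have v1 : vv s k 1 = 0 := by simp [vv, hs]
    rw [v1]; simp
  · have v1 : vv s k 1 = ga k := by simp [vv, hs]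
    rw [v1]
    exact factor _ _ hna hnz

/-- the choice at one place does not change the modulus of the Fourier transform -/
theorem ft_switch (s t : ℕ → Bool) (k : ℕ) (h : ∀ j, j ≠ k → s j = t j) (ξ : ℝ) :
    ‖ft (ff s) ξ‖ = ‖ft (ff t) ξ‖ := by
  rw [ft_ff s k, ft_ff t k, norm_mul, norm_mul, coef_norm, coef_norm, hh_congr s t k h]

/-- truncated sequences -/
def tr (s : ℕ → Bool) (n : ℕ) (k : ℕ) : Bool := if k < n then s k else false

theorem ft_tr (s : ℕ → Bool) (n : ℕ) (ξ : ℝ) :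
    ‖ft (ff (tr s n)) ξ‖ = ‖ft (ff fun _ => false) ξ‖ := by
  induction n with
  | zero => rfl
  | succ n ih =>
    rw [← ih]
    refine ft_switch _ _ n (fun j hj => ?_) ξ
    unfold tr
    by_cases h : j < n
    · rw [if_pos h, if_pos (by omega)]
    · rw [if_neg h, if_neg (by omega)]

theorem exp_close (a b : ℝ) : ‖cexp (a * I) - cexp (b * I)‖ ≤ |a - b| := by
  have h : cexp (a * I) - cexp (b * I) = cexp (b * I) * (cexp (I * ((a - b : ℝ) : ℂ)) - 1) := by
    rw [mul_sub, mul_one, ← Complex.exp_add]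
    congr 2
    push_cast; ring
  rw [h, norm_mul, Complex.norm_exp_ofReal_mul_I, one_mul]
  exact Real.norm_exp_I_mul_ofReal_sub_one_le

theorem ff_close (s t : ℕ → Bool) (n : ℕ) (h : ∀ k < n, s k = t k) (x : ℝ) :
    ‖ff s x - ff t x‖ ≤ if x ∈ Ico (0 : ℝ) 1 then 2 * (1 / 2) ^ n else 0 := by
  unfold ff
  split_ifs
  · exact (exp_close _ _).trans (th_close s t n h x)
  · simp

theorem ft_all (s : ℕ → Bool) (ξ : ℝ) : ‖ft (ff s) ξ‖ = ‖ft (ff fun _ => false) ξ‖ := by
  have h1 : Tendsto (fun n => ft (ff (tr s n)) ξ) atTop (𝓝 (ft (ff s) ξ)) := by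
    unfold ft
    refine tendsto_integral_of_dominated_convergence
      (fun x => (Ico (0 : ℝ) 1).indicator (fun _ => (1 : ℝ)) x) ?_ ?_ ?_ ?_
    · intro n; exact (ph_int (ff_int _) ξ).aestronglyMeasurable
    · exact (integrable_indicator_iff measurableSet_Ico).mpr (integrableOn_const (by simp) (by simp))
    · intro n
      refine Eventually.of_forall fun x => ?_
      rw [norm_mul, Complex.norm_exp_ofReal_mul_I, one_mul, norm_ff, indicator_apply]
    · refine Eventually.of_forall fun x => ?_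
      refine Tendsto.const_mul _ ?_
      rw [tendsto_iff_norm_sub_tendsto_zero]
      refine squeeze_zero (fun n => norm_nonneg _) (fun n => ?_)
        (g := fun n : ℕ => 2 * (1 / 2 : ℝ) ^ n) ?_
      · refine (ff_close (tr s n) s n (fun k hk => if_pos hk) x).trans ?_
        split_ifs
        · exact le_rfl
        · positivity
      · have := (tendsto_pow_atTop_nhds_zero_of_lt_one (r := (1 / 2 : ℝ)) (by norm_num)
          (by norm_num)).const_mul 2
        rwa [mul_zero] at this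
  have h2 := h1.norm
  simp_rw [ft_tr] at h2
  exact tendsto_nhds_unique h2 tendsto_const_nhds |>.symm ▸ rfl

end Pool.Agent.V1178.PS
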