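import Mathlib
import Pool.Agent.V1178.PS.Fn
import Pool.Agent.H153R4.Pl
set_option autoImplicit false

/-! # Classes in `L²` -/

namespace Pool.Agent.V1178.PS

open MeasureTheory Set Filter Complex FourierTransform
open scoped ENNReal Topology

/-- the Hilbert space -/
abbrev L2 : Type := Lp ℂ 2 (volume : Measure ℝ)

theorem ff_L2 (s : ℕ → Bool) : MemLp (ff s) 2 := by
  have h1 : MemLp (fun x : ℝ => (Ico (0 : ℝ) 1).indicator (fun _ => (1 : ℝ)) x) 2 :=
    memLp_indicator_const 2 measurableSet_Ico 1 (Or.inr (by simp))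
  refine h1.mono' (ff_meas s).aestronglyMeasurable (Eventually.of_forall fun x => ?_)
  rw [norm_ff, indicator_apply]

/-- the classes -/
noncomputable def Ph (s : ℕ → Bool) : L2 := (ff_L2 s).toLp (ff s)

theorem Ph_ae (s : ℕ → Bool) : (Ph s : ℝ → ℂ) =ᵐ[volume] ff s := (ff_L2 s).coeFn_toLp

theorem four_eq (s : ℕ → Bool) (ξ : ℝ) : 𝓕 (ff s) ξ = ft (ff s) ξ := by
  rw [Real.fourier_eq' ]
  unfold ft
  refine integral_congr_ae (Eventually.of_forall fun x => ?_)
  simp only [smul_eq_mul]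
  congr 3
  simp only [RCLike.inner_apply, conj_trivial]
  push_cast; ring

theorem Ph_four (s : ℕ → Bool) : ∀ᵐ ξ, ‖(𝓕 (Ph s) : L2) ξ‖ = ‖ft (ff fun _ => false) ξ‖ := by
  filter_upwards [Pool.Agent.H153R4.fourier_ae_eq (ff s) (ff_int s) (ff_L2 s)] with ξ hξ
  change ‖(𝓕 ((ff_L2 s).toLp (ff s)) : L2) ξ‖ = _
  rw [hξ, four_eq, ft_all]

theorem Ph_close (s t : ℕ → Bool) (n : ℕ) (h : ∀ k < n, s k = t k) :
    ‖Ph s - Ph t‖ ≤ 2 * (1 / 2) ^ n := by
  have h1 : Ph s - Ph t = ((ff_L2 s).sub (ff_L2 t)).toLp (ff s - ff t) := by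
    rw [MemLp.toLp_sub]; rfl
  rw [h1, Lp.norm_toLp]
  have h2 : eLpNorm (ff s - ff t) 2 volume ≤ ENNReal.ofReal (2 * (1 / 2) ^ n) := by
    have h3 : eLpNorm (ff s - ff t) 2 volume ≤
        eLpNorm ((Ico (0 : ℝ) 1).indicator fun _ => (2 * (1 / 2) ^ n : ℝ)) 2 volume := by
      refine eLpNorm_mono_real fun x => ?_
      rw [indicator_apply]
      exact ff_close s t n h x
    refine h3.trans ?_
    rw [eLpNorm_indicator_const measurableSet_Ico (by norm_num) (by norm_num)]
    rw [Real.volume_Ico, sub_zero, ENNReal.ofReal_one, ENNReal.one_rpow, mul_one]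
    rw [← ofReal_norm, Real.norm_of_nonneg (by positivity)]
  have h4 := ENNReal.toReal_mono ENNReal.ofReal_ne_top h2
  rwa [ENNReal.toReal_ofReal (by positivity)] at h4

/-- an interval on which the digit at place `k + 1` vanishes -/
theorem dg_zero (k : ℕ) (x : ℝ) (h0 : 0 ≤ x) (h1 : x < 1 / 3 ^ (k + 1)) : dg k x = 0 := by
  unfold dg
  have : ⌊(3 : ℝ) ^ (k + 1) * x⌋ = 0 := by
    rw [Int.floor_eq_zero_iff]
    refine ⟨by positivity, ?_⟩
    rw [lt_div_iff₀ (by positivity)] at h1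
    linarith
  rw [this]; rfl

theorem indep_aux (s t : ℕ → Bool) (k : ℕ) (hk : s k ≠ t k) (a b : ℂ)
    (h : ∀ᵐ x : ℝ, a * ff s x + b * ff t x = 0) : a = 0 ∧ b = 0 := by
  have h' : ∀ᵐ x : ℝ, a * ff s (x + 1 / 3 ^ (k + 1)) + b * ff t (x + 1 / 3 ^ (k + 1)) = 0 :=
    (measurePreserving_add_right volume (1 / 3 ^ (k + 1) : ℝ)).quasiMeasurePreserving.ae h
  have hpos : volume (Ico (0 : ℝ) (1 / 3 ^ (k + 1))) ≠ 0 := by
    rw [Real.volume_Ico, sub_zero]
    simp
  obtain ⟨x, hx, h1, h2⟩ : ∃ x ∈ Ico (0 : ℝ) (1 / 3 ^ (k + 1)),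
      a * ff s x + b * ff t x = 0 ∧
      a * ff s (x + 1 / 3 ^ (k + 1)) + b * ff t (x + 1 / 3 ^ (k + 1)) = 0 := by
    by_contra hc
    push Not at hc
    apply hpos
    refine measure_mono_null (fun x hx => ?_) (ae_iff.mp (h.and h'))
    intro hx2
    exact hc x hx hx2.1 hx2.2
  have hdg := dg_zero k x hx.1 hx.2
  have hxI : x ∈ Ico (0 : ℝ) 1 := ⟨hx.1, hx.2.trans_le (by
    rw [div_le_one (by positivity)]; exact one_le_pow₀ (by norm_num))⟩
  have hsh : ∀ r : ℕ → Bool, ff r (x + 1 / 3 ^ (k + 1)) = cexp (vv r k 1 * I) * ff r x := by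
    intro r
    have h3 := hh_shift r k x 1 (by norm_num) (by norm_num)
    have h4 : dg k (x + ((1 : ℤ) : ℝ) / 3 ^ (k + 1)) = 1 := by
      rw [dg_shift_eq, hdg]; rfl
    rw [if_pos ⟨h4, hxI, hdg⟩] at h3
    unfold hh at h3
    rw [if_pos hdg] at h3
    push_cast at h3
    exact h3.symm
  rw [hsh, hsh] at h2
  have hne : cexp (ga k * I) ≠ 1 := by
    intro hc
    rw [Complex.exp_eq_one_iff] at hc
    obtain ⟨n, hn⟩ := hc
    have hn' : (ga k : ℝ) = n * (2 * Real.pi) := by
      have := congrArg Complex.im hn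
      simpa using this
    have h5 := ga_pos k
    have h6 := ga_le k
    have hpi := Real.pi_gt_three
    have h7 : (0 : ℝ) < n := by
      by_contra hc
      push Not at hc
      nlinarith
    have h8 : (1 : ℝ) ≤ n := by
      have : (0 : ℤ) < n := by exact_mod_cast h7
      exact_mod_cast this
    nlinarith
  have hs0 : ff s x ≠ 0 := by
    have := norm_ff s x; rw [if_pos hxI] at this
    intro h0; rw [h0, norm_zero] at this; norm_num at this
  have ht0 : ff t x ≠ 0 := by
    have := norm_ff t x; rw [if_pos hxI] at this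
    intro h0; rw [h0, norm_zero] at this; norm_num at this
  have hor : (vv s k 1 = ga k ∧ vv t k 1 = 0) ∨ (vv s k 1 = 0 ∧ vv t k 1 = ga k) := by
    cases hs : s k <;> cases ht : t k
    · rw [hs, ht] at hk; exact absurd rfl hk
    · right; simp [vv, hs, ht]
    · left; simp [vv, hs, ht]
    · rw [hs, ht] at hk; exact absurd rfl hk
  rcases hor with ⟨e1, e2⟩ | ⟨e1, e2⟩
  · rw [e1, e2] at h2
    simp only [ofReal_zero, zero_mul, Complex.exp_zero, one_mul] at h2
    have h9 : a * ff s x * (cexp (ga k * I) - 1) = 0 := by linear_combination h2 - h1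
    have ha : a = 0 := by
      rcases mul_eq_zero.mp h9 with h | h
      · exact (mul_eq_zero.mp h).resolve_right hs0
      · exact absurd (sub_eq_zero.mp h) hne
    rw [ha, zero_mul, zero_add] at h1
    exact ⟨ha, (mul_eq_zero.mp h1).resolve_right ht0⟩
  · rw [e1, e2] at h2
    simp only [ofReal_zero, zero_mul, Complex.exp_zero, one_mul] at h2
    have h9 : b * ff t x * (cexp (ga k * I) - 1) = 0 := by linear_combination h2 - h1
    have hb : b = 0 := by
      rcases mul_eq_zero.mp h9 with h | h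
      · exact (mul_eq_zero.mp h).resolve_right ht0
      · exact absurd (sub_eq_zero.mp h) hne
    rw [hb, zero_mul, add_zero] at h1
    exact ⟨(mul_eq_zero.mp h1).resolve_right hs0, hb⟩

theorem Ph_indep (s t : ℕ → Bool) (h : s ≠ t) : LinearIndependent ℂ ![Ph s, Ph t] := by
  obtain ⟨k, hk⟩ := Function.ne_iff.mp h
  rw [LinearIndependent.pair_iff]
  intro a b hab
  refine indep_aux s t k hk a b ?_
  have h1 : ((a • Ph s + b • Ph t : L2) : ℝ → ℂ) =ᵐ[volume] 0 := by
    rw [hab]; exact Lp.coeFn_zero _ _ _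
  filter_upwards [h1, Lp.coeFn_add (a • Ph s) (b • Ph t), Lp.coeFn_smul a (Ph s),
    Lp.coeFn_smul b (Ph t), Ph_ae s, Ph_ae t] with x e1 e2 e3 e4 e5 e6
  rw [e2] at e1
  simp only [Pi.add_apply, e3, e4, Pi.smul_apply, e5, e6, smul_eq_mul, Pi.zero_apply] at e1
  exact e1

theorem Ph_inj : Function.Injective Ph := by
  intro s t h
  by_contra hne
  have h1 := Ph_indep s t hne
  rw [h, LinearIndependent.pair_iff] at h1
  have := h1 1 (-1) (by simp)
  exact one_ne_zero this.1

theorem Ph_cont : Continuous Ph := by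
  rw [continuous_iff_continuousAt]
  intro s
  rw [ContinuousAt, Metric.tendsto_nhds]
  intro ε hε
  obtain ⟨n, hn⟩ := exists_pow_lt_of_lt_one (show 0 < ε / 2 by linarith) (show (1 / 2 : ℝ) < 1 by norm_num)
  have h1 : ∀ᶠ t in 𝓝 s, ∀ k ∈ Finset.range n, t k = s k := by
    rw [Filter.eventually_all_finset]
    intro k _
    have h2 : ContinuousAt (fun t : ℕ → Bool => t k) s := (continuous_apply k).continuousAt
    exact h2.eventually_mem ((isOpen_discrete {s k}).mem_nhds rfl)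
  filter_upwards [h1] with t ht
  rw [dist_eq_norm]
  refine (Ph_close t s n fun k hk => ht k (Finset.mem_range.mpr hk)).trans_lt ?_
  linarith

end Pool.Agent.V1178.PS
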